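import Mathlib
import Pool.Agent.H24.H10Sys

set_option autoImplicit false

namespace Pool.Agent.Results.MP_9c9736_lc.Undecidable

open Pool.Agent.H24

/-- value of a rational polynomial, given as a list of terms (coefficient, list of indices),
at the sequence `π` -/
noncomputable def ev (g : List (ℚ × List ℕ)) (π : ℕ → ℝ) : ℝ :=
  (g.map fun m => (m.1 : ℝ) * (m.2.map π).prod).sum

/-- the truncation `f^{(n)}(x)` of `f = g(p_1, p_2, ...)`; the index `k` stands for `p_{k+1}` -/
noncomputable def trunc (g : List (ℚ × List ℕ)) {n : ℕ} (x : Fin n → ℝ) : ℝ :=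
  ev g fun k => ∑ i, x i ^ (k + 1)

/-- any-dimensional non-negativity -/
def Nonneg (g : List (ℚ × List ℕ)) : Prop := ∀ (n : ℕ) (x : Fin n → ℝ), 0 ≤ trunc g x

/-- homogeneity -/
def Homog (g : List (ℚ × List ℕ)) : Prop :=
  ∃ d : ℕ, ∀ (n : ℕ) (x : Fin n → ℝ) (t : ℝ), trunc g (t • x) = t ^ d * trunc g x

/-- any-dimensional positivity (positive definiteness in the homogeneous case) -/
def Positive (g : List (ℚ × List ℕ)) : Prop :=
  ∀ (n : ℕ) (x : Fin n → ℝ), (Homog g → x ≠ 0) → 0 < trunc g x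

/-- functions given by a term list -/
def S (F : (ℕ → ℝ) → ℝ) : Prop := ∃ g, ∀ π, ev g π = F π

theorem ev_append (g h : List (ℚ × List ℕ)) (π : ℕ → ℝ) : ev (g ++ h) π = ev g π + ev h π := by
  simp [ev]

theorem S.const (c : ℚ) : S fun _ => c := ⟨[(c, [])], by simp [ev]⟩
theorem S.var (k : ℕ) : S fun π => π k := ⟨[(1, [k])], by simp [ev]⟩
theorem S.add {F G : _} (h : S F) (k : S G) : S fun π => F π + G π :=
  let ⟨a, ha⟩ := h; let ⟨b, hb⟩ := k; ⟨a ++ b, fun π => by rw [ev_append, ha, hb]⟩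

theorem S.mul {F G : _} (h : S F) (k : S G) : S fun π => F π * G π := by
  obtain ⟨a, ha⟩ := h
  obtain ⟨b, hb⟩ := k
  refine ⟨a.flatMap fun m => b.map fun m' => (m.1 * m'.1, m.2 ++ m'.2), fun π => ?_⟩
  dsimp only
  rw [← ha, ← hb]
  clear ha hb
  induction a with
  | nil => simp [ev]
  | cons m a ih =>
    rw [List.flatMap_cons, ev_append, ih]
    simp only [ev, List.map_cons, List.sum_cons, add_mul, List.map_map]
    congr 1
    rw [← List.sum_map_mul_left]
    congr 2
    funext m'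
    simp; ring

theorem S.mv {σ : Type} {N : σ → (ℕ → ℝ) → ℝ} (h : ∀ j, S (N j)) (P : MvPolynomial σ ℤ) :
    S fun π => MvPolynomial.aeval (fun j => N j π) P := by
  induction P using MvPolynomial.induction_on with
  | C a => simpa using S.const a
  | add p q a b => simpa using a.add b
  | mul_X p j a => simpa using a.mul (h j)

theorem lin (φ : Polynomial ℚ) (h : φ.eval 0 = 0) : ∃ F, S F ∧ ∀ (n : ℕ) (x : Fin n → ℝ),
    F (fun k => ∑ i, x i ^ (k + 1)) = ∑ i, Polynomial.aeval (x i) φ := by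
  obtain ⟨ψ, rfl⟩ := Polynomial.X_dvd_iff.2 ((Polynomial.coeff_zero_eq_eval_zero φ).trans h)
  clear h
  induction ψ using Polynomial.induction_on' with
  | add p q a b =>
    obtain ⟨F, a1, a2⟩ := a
    obtain ⟨G, b1, b2⟩ := b
    exact ⟨_, a1.add b1, fun n x => by simp [a2, b2, mul_add, Finset.sum_add_distrib]⟩
  | monomial k c =>
    refine ⟨_, (S.const c).mul (S.var k), fun n x => ?_⟩
    simp only [Finset.mul_sum, map_mul, Polynomial.aeval_X, Polynomial.aeval_monomial]
    exact Finset.sum_congr rfl fun i _ => by simp; ring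

theorem lip {σ : Type} (P : MvPolynomial σ ℤ) : ∃ T B : MvPolynomial σ ℤ, ∀ (N c : σ → ℝ) (ε : ℝ),
    0 ≤ ε → ε ≤ 1 → (∀ j, |c j - N j| ≤ ε) → 0 ≤ MvPolynomial.aeval N T ∧
    |MvPolynomial.aeval c P - MvPolynomial.aeval N P| ≤ MvPolynomial.aeval N T * ε ∧
    |MvPolynomial.aeval c P| ≤ MvPolynomial.aeval N B := by
  induction P using MvPolynomial.induction_on with
  | C a => exact ⟨0, MvPolynomial.C |a|, by simp⟩
  | add p q a b =>
    obtain ⟨T, B, a⟩ := a
    obtain ⟨T', B', b⟩ := b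
    refine ⟨T + T', B + B', fun N c ε h0 h1 h => ?_⟩
    obtain ⟨a1, a2, a3⟩ := a N c ε h0 h1 h
    obtain ⟨b1, b2, b3⟩ := b N c ε h0 h1 h
    simp only [map_add, abs_le] at *
    refine ⟨by linarith, ⟨?_, ?_⟩, ?_, ?_⟩ <;> linarith [a2.1, a2.2, b2.1, b2.2, a3.1, b3.1]
  | mul_X p j a =>
    obtain ⟨T, B, a⟩ := a
    refine ⟨B + (1 + .X j ^ 2) * T, B * (2 + .X j ^ 2), fun N c ε h0 h1 h => ?_⟩
    obtain ⟨a1, a2, a3⟩ := a N c ε h0 h1 h
    simp only [map_add, map_mul, map_pow, map_one, MvPolynomial.aeval_X, map_ofNat]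
    generalize MvPolynomial.aeval N T = t at *
    generalize MvPolynomial.aeval N B = b at *
    generalize MvPolynomial.aeval N p = u at *
    generalize MvPolynomial.aeval c p = v at *
    have b0 := (abs_nonneg v).trans a3
    have b1 : |N j| ≤ 1 + N j ^ 2 := by rw [← sq_abs]; nlinarith [abs_nonneg (N j)]
    have b2 : |c j| ≤ 2 + N j ^ 2 := by
      have := abs_sub_abs_le_abs_sub (c j) (N j)
      linarith [h j]
    refine ⟨by positivity, ?_, by rw [abs_mul]; gcongr⟩
    calc |v * c j - u * N j| = |v * (c j - N j) + N j * (v - u)| := by ring_nf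
      _ ≤ |v| * |c j - N j| + |N j| * |v - u| := by
        rw [← abs_mul, ← abs_mul]; exact abs_add_le _ _
      _ ≤ b * ε + (1 + N j ^ 2) * (t * ε) := by gcongr; exact h j
      _ = _ := by ring

theorem cast_ev {σ : Type} (c : σ → ℕ) (P : MvPolynomial σ ℤ) :
    MvPolynomial.aeval (fun j => (c j : ℝ)) P =
      ((MvPolynomial.eval (fun j => (c j : ℤ)) P : ℤ) : ℝ) := by
  induction P using MvPolynomial.induction_on <;> simp_all

theorem rnd (l : ℝ) : ∃ c : ℕ, |c - l ^ 2 * (3 - 2 * l)| ≤ 4 * (l * (1 - l)) ^ 2 * (4 + l ^ 2) := by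
  rcases le_total l (1 / 2) with h | h
  · refine ⟨0, ?_⟩
    rw [Nat.cast_zero, zero_sub, abs_neg, abs_of_nonneg (by nlinarith [sq_nonneg l])]
    have a : 3 - 2 * l ≤ 4 + l ^ 2 := by nlinarith [sq_nonneg (l + 1)]
    have b : 1 ≤ 4 * (1 - l) ^ 2 := by nlinarith
    calc l ^ 2 * (3 - 2 * l) ≤ l ^ 2 * ((4 * (1 - l) ^ 2) * (4 + l ^ 2)) := by
          gcongr; nlinarith [sq_nonneg l]
      _ = _ := by ring
  · refine ⟨1, ?_⟩
    rw [Nat.cast_one, show 1 - l ^ 2 * (3 - 2 * l) = (1 - l) ^ 2 * (1 + 2 * l) by ring,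
      abs_of_nonneg (by positivity)]
    have a : 1 + 2 * l ≤ 4 + l ^ 2 := by nlinarith [sq_nonneg (l - 1)]
    have b : 1 ≤ 4 * l ^ 2 := by nlinarith
    calc (1 - l) ^ 2 * (1 + 2 * l) ≤ (1 - l) ^ 2 * ((4 * l ^ 2) * (4 + l ^ 2)) := by
          gcongr; nlinarith [sq_nonneg l]
      _ = _ := by ring

/-- Any-dimensional non-negativity and any-dimensional positivity are undecidable. -/
theorem result : ¬ ComputablePred Nonneg ∧ ¬ ComputablePred Positive := by
  obtain ⟨m, P, hK⟩ := DPRM.h10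
  obtain ⟨T, B, hT⟩ := lip P
  let l : Fin (m + 1) → Polynomial ℚ := fun j =>
    Lagrange.basis Finset.univ (fun i : Fin (m + 3) => (i : ℚ)) j.succ.succ
  have inj : Set.InjOn (fun i : Fin (m + 3) => (i : ℚ)) (Finset.univ : Finset (Fin (m + 3))) :=
    fun a _ b _ h => Fin.ext (Nat.cast_injective h)
  have hl : ∀ j (i : Fin (m + 3)), (l j).eval (i : ℚ) = if j.succ.succ = i then 1 else 0 :=
    fun j i => by
      split_ifs with h
      · subst h; exact Lagrange.eval_basis_self inj (Finset.mem_univ _)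
      · exact Lagrange.eval_basis_of_ne (v := fun i : Fin (m + 3) => (i : ℚ)) h (Finset.mem_univ _)
  have hl0 : ∀ j, (l j).eval 0 = 0 := fun j => by simpa using hl j 0
  choose N hN eN using fun j => lin (l j ^ 2 * (3 - 2 * l j)) (by simp [hl0])
  obtain ⟨H, hH, eH⟩ := lin (∑ j, 4 * (l j * (1 - l j)) ^ 2 * (4 + l j ^ 2)) (by
    simp [Polynomial.eval_finsetSum, hl0])
  obtain ⟨A, hA⟩ := ((((S.mv hN P).mul (S.mv hN P)).add ((hN 0).mul (hN 0))).add
    (S.const (-1 / 8))).add (((S.mv hN T).add (S.const 1)).mul hH)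
  obtain ⟨D, hD⟩ := (S.const (-2)).mul (hN 0)
  let r : ℕ → List (ℚ × List ℕ) := fun n =>
    A ++ ((List.replicate n D).flatten ++ List.replicate (n * n) (1, []))
  have hr : Computable r := (Primrec.list_append.comp (Primrec.const A) (Primrec.list_append.comp
    (Primrec.list_flatten.comp (H10.prim_replicate D))
    ((H10.prim_replicate _).comp (Primrec.nat_mul.comp Primrec.id Primrec.id)))).to_comp
  have er : ∀ n π, ev (r n) π = MvPolynomial.aeval (fun j => N j π) P ^ 2 + (N 0 π - n) ^ 2 - 1 / 8 +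
      (MvPolynomial.aeval (fun j => N j π) T + 1) * H π := fun n π => by
    have : ev (List.replicate n D).flatten π = n * ev D π := by
      induction n with
      | zero => simp [ev]
      | succ n ih => rw [List.replicate_succ, List.flatten_cons, ev_append, ih]; push_cast; ring
    rw [ev_append, ev_append, this, hA, hD]
    simp [ev]; ring
  have h1 : ∀ n, (∃ x : Fin (m + 1) → ℕ, x 0 = n ∧
      MvPolynomial.eval (fun i => (x i : ℤ)) P = 0) →
      ∃ (k : ℕ) (x : Fin k → ℝ), x ≠ 0 ∧ trunc (r n) x < 0 := by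
    rintro n ⟨c, rfl, hc⟩
    let e := Fintype.equivFin (Option (Σ j, Fin (c j)))
    let v : Option (Σ j, Fin (c j)) → Fin (m + 3) := fun o => o.elim 1 fun s => s.1.succ.succ
    have hv : ∀ φ : Polynomial ℚ, ∑ i, Polynomial.aeval (((v (e.symm i) : ℕ) : ℚ) : ℝ) φ =
        ∑ o, ((φ.eval ((v o : ℕ) : ℚ) : ℚ) : ℝ) := fun φ => by
      rw [← Equiv.sum_comp e.symm]
      exact Finset.sum_congr rfl fun i _ => Polynomial.aeval_algebraMap_apply_eq_algebraMap_eval _ _
    refine ⟨_, fun i => (((v (e.symm i) : ℕ) : ℚ) : ℝ), fun h => ?_, ?_⟩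
    · simpa [v] using congrFun h (e none)
    have a1 : ∀ j, N j (fun k => ∑ i, (((v (e.symm i) : ℕ) : ℚ) : ℝ) ^ (k + 1)) = c j := fun j => by
      rw [eN, hv]
      simp only [Polynomial.eval_mul, Polynomial.eval_pow, Polynomial.eval_sub, hl,
        Polynomial.eval_ofNat, Fintype.sum_option, Fintype.sum_sigma, v, Option.elim,
        Fin.succ_inj]
      rw [if_neg (fun h => by have := congrArg Fin.val h; simp at this), Finset.sum_eq_single j (fun i _ h => by simp [h.symm])
        (by simp)]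
      norm_num
    have a2 : H (fun k => ∑ i, (((v (e.symm i) : ℕ) : ℚ) : ℝ) ^ (k + 1)) = 0 := by
      rw [eH, hv]
      refine Finset.sum_eq_zero fun o _ => ?_
      rw [Rat.cast_eq_zero, Polynomial.eval_finsetSum]
      refine Finset.sum_eq_zero fun j _ => ?_
      simp only [Polynomial.eval_mul, Polynomial.eval_pow, Polynomial.eval_sub, hl,
        Polynomial.eval_one]
      split_ifs <;> simp
    have a3 : MvPolynomial.aeval (fun j => (c j : ℝ)) P = 0 := by
      rw [cast_ev, hc, Int.cast_zero]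
    rw [trunc, er]
    simp only [a1, a2, a3]
    norm_num
  have h2 : ∀ (n k : ℕ) (x : Fin k → ℝ), trunc (r n) x ≤ 0 → ∃ x : Fin (m + 1) → ℕ, x 0 = n ∧
      MvPolynomial.eval (fun i => (x i : ℤ)) P = 0 := fun n k x h => by
    choose c hc using fun j i => rnd (Polynomial.aeval (x i) (l j))
    rw [trunc, er] at h
    have b0 : ∀ i j, 0 ≤ 4 * (Polynomial.aeval (x i) (l j) * (1 - Polynomial.aeval (x i) (l j))) ^ 2 *
      (4 + Polynomial.aeval (x i) (l j) ^ 2) := fun _ _ => by positivity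
    have b1 : ∀ j, |((∑ i, c j i : ℕ) : ℝ) - N j fun k => ∑ i, x i ^ (k + 1)| ≤
        H fun k => ∑ i, x i ^ (k + 1) := fun j => by
      rw [eN, eH, Nat.cast_sum, ← Finset.sum_sub_distrib]
      refine (Finset.abs_sum_le_sum_abs _ _).trans (Finset.sum_le_sum fun i _ => ?_)
      simp only [map_sum, map_mul, map_pow, map_sub, map_add, map_ofNat, map_one]
      exact (hc j i).trans (Finset.single_le_sum (fun j _ => b0 i j) (Finset.mem_univ j))
    have b2 := (abs_nonneg _).trans (b1 0)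
    have b3 := (hT _ _ 0 le_rfl zero_le_one (fun j => (by simp :
      |(N j fun k => ∑ i, x i ^ (k + 1)) - N j fun k => ∑ i, x i ^ (k + 1)| ≤ 0))).1
    generalize (H fun k => ∑ i, x i ^ (k + 1)) = ε at *
    generalize (fun k => ∑ i, x i ^ (k + 1)) = π at *
    have b4 := mul_nonneg b3 b2
    have b5 := sq_nonneg (MvPolynomial.aeval (fun j => N j π) P)
    have b6 := sq_nonneg (N 0 π - n)
    obtain ⟨-, b7, -⟩ := hT _ _ ε b2 (by nlinarith) b1
    have b8 := abs_le.1 (b1 0)
    have b9 := abs_le.1 b7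
    refine ⟨fun j => ∑ i, c j i, ?_, ?_⟩
    · have : |((∑ i, c 0 i : ℕ) : ℝ) - n| < 1 := abs_lt.2 ⟨by nlinarith, by nlinarith⟩
      have : |((∑ i, c 0 i : ℕ) : ℤ) - n| < 1 := by exact_mod_cast this
      exact_mod_cast sub_eq_zero.1 (Int.abs_lt_one_iff.1 this)
    · have : |MvPolynomial.aeval (fun j => ((∑ i, c j i : ℕ) : ℝ)) P| < 1 :=
        abs_lt.2 ⟨by nlinarith, by nlinarith⟩
      rw [cast_ev] at this
      exact Int.abs_lt_one_iff.1 (by exact_mod_cast this)
  refine ⟨fun hc => H10.not_comp_of_red hK r hr (fun n => ⟨fun h hn => ?_, fun h => ?_⟩) hc.not,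
    fun hc => H10.not_comp_of_red hK r hr (fun n => ⟨fun h hn => ?_, fun h => ?_⟩) hc.not⟩
  · obtain ⟨k, x, -, hx⟩ := h1 n h
    exact hx.not_ge (hn k x)
  · obtain ⟨k, x, hx⟩ : ∃ (k : ℕ) (x : Fin k → ℝ), trunc (r n) x < 0 := by simpa [Nonneg] using h
    exact h2 n k x hx.le
  · obtain ⟨k, x, h0, hx⟩ := h1 n h
    exact hx.not_gt (hn k x fun _ => h0)
  · by_contra h'
    exact h fun k x _ => not_le.1 fun hx => h' (h2 n k x hx)

end Pool.Agent.Results.MP_9c9736_lc.Undecidable
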